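import Mathlib
import Pool.Agent.H75.RBLower

/-! The Rota-Baxter index of the Grassmann algebra on `n ≥ 1` generators is `max n 2`. -/

namespace Pool.Agent.Results.MP_160e58_al.RBIndex

/-- The exponents `m` with `R ^ m = 0` for every Rota-Baxter operator `R` of weight `0`
on the `F`-algebra `A`. -/
def Kills (F A : Type) [Field F] [Ring A] [Algebra F A] : Set ℕ :=
  {m : ℕ | ∀ R : Module.End F A, (∀ x y, R x * R y = R (R x * y + x * R y)) → R ^ m = 0}

theorem result (F : Type) [Field F] [CharZero F] (n : ℕ) (hn : 1 ≤ n) :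
    IsLeast (Kills F (ExteriorAlgebra F (Fin n → F))) (max n 2) := by
  refine ⟨fun R hR => Pool.Agent.H75.RB.upper R hR, fun m hm => ?_⟩
  obtain ⟨R, hR, h0⟩ := Pool.Agent.H75.RB.lower (F := F) hn
  by_contra hlt
  exact h0 (pow_eq_zero_of_le (by omega) (hm R hR))

end Pool.Agent.Results.MP_160e58_al.RBIndex
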